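import Pool.Agent.H54.EN.Main

/-!
# Not every element of the Weyl group of `E10` is realized by an automorphism of an Enriques surface

Negative answer to the question of MP_8fa801_ag, in all characteristics.
-/

set_option autoImplicit false

universe u

namespace Pool.Agent.Results.MP_8fa801_ag.NotAllRealized

open Pool.Agent.H54.EN

/-- Some element of the Weyl group of the lattice `E10` is not realized by an automorphism of an Enriques surface
over an algebraically closed field, in any characteristic. -/
theorem result : ∃ w ∈ WE10, ¬ Realized.{u} w := main

end Pool.Agent.Results.MP_8fa801_ag.NotAllRealized
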